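import Pool.Agent.Helper31.CY.St3

/-!
# Project CY, module RTI: transport by rotations
-/

set_option autoImplicit false

open Set Topology Filter

namespace Pool.Agent.Helper29.CY

open Pool.Agent.Helper31.CY

namespace RTI

lemma ext3 {x y : E3} (h0 : x 0 = y 0) (h1 : x 1 = y 1) (h2 : x 2 = y 2) : x = y := by
  ext i
  fin_cases i
  · exact h0
  · exact h1
  · exact h2

lemma rot0 (θ : ℝ) (x : E3) : rot θ x 0 = Real.cos θ * x 0 - Real.sin θ * x 1 := rfl
lemma rot1 (θ : ℝ) (x : E3) : rot θ x 1 = Real.sin θ * x 0 + Real.cos θ * x 1 := rfl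
lemma rot2 (θ : ℝ) (x : E3) : rot θ x 2 = x 2 := rfl

lemma rot_rot (θ φ : ℝ) (x : E3) : rot θ (rot φ x) = rot (θ + φ) x := by
  apply ext3
  · rw [rot0, rot0, rot1, rot0, Real.cos_add, Real.sin_add]
    ring
  · rw [rot1, rot0, rot1, rot1, Real.cos_add, Real.sin_add]
    ring
  · rw [rot2, rot2, rot2]

lemma rot_zero (x : E3) : rot 0 x = x := by
  apply ext3
  · rw [rot0, Real.cos_zero, Real.sin_zero]
    ring
  · rw [rot1, Real.cos_zero, Real.sin_zero]
    ring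
  · rw [rot2]

lemma rot_neg_rot (θ : ℝ) (x : E3) : rot (-θ) (rot θ x) = x := by
  rw [rot_rot, neg_add_cancel, rot_zero]

lemma rot_rot_neg (θ : ℝ) (x : E3) : rot θ (rot (-θ) x) = x := by
  rw [rot_rot, add_neg_cancel, rot_zero]

lemma rot_dist (θ : ℝ) (x y : E3) : dist (rot θ x) (rot θ y) = dist x y := by
  rw [EuclideanSpace.dist_eq, EuclideanSpace.dist_eq]
  congr 1
  rw [Fin.sum_univ_three, Fin.sum_univ_three]
  simp only [Real.dist_eq, sq_abs]
  rw [rot0, rot0, rot1, rot1, rot2, rot2]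
  have h := Real.sin_sq_add_cos_sq θ
  linear_combination ((x 0 - y 0) ^ 2 + (x 1 - y 1) ^ 2) * h

/-- the rotation as a continuous linear map -/
noncomputable def rl (θ : ℝ) : E3 →L[ℝ] E3 :=
  LinearMap.toContinuousLinearMap
    { toFun := rot θ
      map_add' := by
        intro x y
        apply ext3
        · simp only [rot0, PiLp.add_apply]
          ring
        · simp only [rot1, PiLp.add_apply]
          ring
        · simp only [rot2, PiLp.add_apply]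
      map_smul' := by
        intro c x
        apply ext3
        · simp only [rot0, PiLp.smul_apply, smul_eq_mul, RingHom.id_apply]
          ring
        · simp only [rot1, PiLp.smul_apply, smul_eq_mul, RingHom.id_apply]
          ring
        · simp only [rot2, PiLp.smul_apply, smul_eq_mul, RingHom.id_apply] }

lemma rl_apply (θ : ℝ) (x : E3) : rl θ x = rot θ x := rfl

lemma rot_cont (θ : ℝ) : Continuous (rot θ) := (rl θ).continuous

lemma norm_rot (θ : ℝ) (x : E3) : ‖rot θ x‖ = ‖x‖ := by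
  have h := rot_dist θ x 0
  have h0 : rot θ 0 = 0 := by
    rw [← rl_apply, map_zero]
  rwa [h0, dist_zero_right, dist_zero_right] at h

lemma mem_img (θ : ℝ) (S : Set E3) (y : E3) : y ∈ rot θ '' S ↔ rot (-θ) y ∈ S := by
  constructor
  · rintro ⟨x, hx, rfl⟩
    rw [rot_neg_rot]
    exact hx
  · intro h
    exact ⟨_, h, rot_rot_neg θ y⟩

lemma cd_comp {F : Type} [NormedAddCommGroup F] [NormedSpace ℝ F] {n : ℕ∞} {Φ : E3 → F} {U : Set E3}
    (θ : ℝ) (h : ContDiffOn ℝ n Φ U) :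
    ContDiffOn ℝ n (fun y => Φ (rot (-θ) y)) {y | rot (-θ) y ∈ U} :=
  h.comp (rl (-θ)).contDiff.contDiffOn (fun _ hy => hy)

lemma op_pre {U : Set E3} (θ : ℝ) (h : IsOpen U) : IsOpen {y | rot (-θ) y ∈ U} :=
  h.preimage (rot_cont (-θ))

lemma fd_comp {F : Type} [NormedAddCommGroup F] [NormedSpace ℝ F] {Φ : E3 → F} {U : Set E3}
    (θ : ℝ) (hU : IsOpen U) (h : ContDiffOn ℝ 1 Φ U) {y : E3} (hy : rot (-θ) y ∈ U) (v : E3) :
    fderiv ℝ (fun y => Φ (rot (-θ) y)) y v = fderiv ℝ Φ (rot (-θ) y) (rot (-θ) v) := by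
  have h1 : DifferentiableAt ℝ Φ (rot (-θ) y) :=
    (h.differentiableOn one_ne_zero).differentiableAt (hU.mem_nhds hy)
  have h2 : HasFDerivAt (fun y => Φ (rot (-θ) y)) ((fderiv ℝ Φ (rot (-θ) y)).comp (rl (-θ))) y :=
    HasFDerivAt.comp (g := Φ) (f := rl (-θ)) y h1.hasFDerivAt (rl (-θ)).hasFDerivAt
  rw [h2.fderiv]
  rfl

lemma model_rot {S M : Set E3} {p : E3} (θ : ℝ) (h : ModelAt S M p) :
    ModelAt (rot θ '' S) M (rot θ p) := by
  obtain ⟨Φ, U, hU, hp, hC, h0, hiso, hmem⟩ := h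
  have hp' : rot (-θ) (rot θ p) ∈ U := by
    rw [rot_neg_rot]
    exact hp
  refine ⟨fun y => Φ (rot (-θ) y), {y | rot (-θ) y ∈ U}, op_pre θ hU, hp', cd_comp θ hC, ?_, ?_, ?_⟩
  · show Φ (rot (-θ) (rot θ p)) = 0
    rw [rot_neg_rot, h0]
  · intro v
    rw [fd_comp θ hU hC hp', rot_neg_rot, hiso, norm_rot]
  · intro y hy
    rw [mem_img]
    exact hmem _ hy

lemma bdy_rot {S : Set E3} {p : E3} (θ : ℝ) (h : BdyP S p) : BdyP (rot θ '' S) (rot θ p) := by
  obtain ⟨Φ, U, hU, hp, hC, h0, hiso, hmem⟩ := h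
  have hp' : rot (-θ) (rot θ p) ∈ U := by
    rw [rot_neg_rot]
    exact hp
  refine ⟨fun y => Φ (rot (-θ) y), {y | rot (-θ) y ∈ U}, op_pre θ hU, hp', cd_comp θ hC, ?_, ?_, ?_⟩
  · show Φ (rot (-θ) (rot θ p)) = 0
    rw [rot_neg_rot, h0]
  · intro v hv
    rw [fd_comp θ hU hC hp', rot_neg_rot]
    refine hiso _ ?_
    intro h1
    apply hv
    rw [← norm_eq_zero, ← norm_rot (-θ) v, h1, norm_zero]
  · intro y hy
    rw [mem_img]
    exact hmem _ hy

lemma reg_rot (hMSR : StMSR) {S : Set E3} {p : E3} (θ : ℝ) (h : RegP S p) :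
    RegP (rot θ '' S) (rot θ p) := by
  obtain ⟨f, U, hU, hp, hC, hne, hmem, hmse⟩ := h
  have hp' : rot (-θ) (rot θ p) ∈ U := by
    rw [rot_neg_rot]
    exact hp
  refine ⟨fun y => f (rot (-θ) y), {y | rot (-θ) y ∈ U}, op_pre θ hU, hp', ?_, ?_, ?_, ?_⟩
  · exact cd_comp (n := 2) θ hC
  · intro y hy h1
    apply hne _ hy
    ext w
    have h2 := fd_comp θ hU (hC.of_le one_le_two) hy (rot θ w)
    rw [h1, rot_neg_rot] at h2
    rw [← h2]
    rfl
  · intro y hy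
    rw [mem_img]
    exact hmem _ hy
  · intro y hy hyS
    rw [mem_img] at hyS
    rw [hMSR f U (-θ) y hU hC hy]
    exact hmse _ hy hyS

lemma circ_rot {r h : ℝ} (θ : ℝ) {x : E3} (hx : x ∈ circ r h) : rot θ x ∈ circ r h := by
  obtain ⟨h1, h2⟩ := hx
  refine ⟨?_, ?_⟩
  · rw [rot0, rot1]
    have h := Real.sin_sq_add_cos_sq θ
    linear_combination (x 0 ^ 2 + x 1 ^ 2) * h + h1
  · rw [rot2]
    exact h2

lemma circ2_rot {r0 r1 h : ℝ} (θ : ℝ) {x : E3} (hx : x ∈ circ r0 0 ∪ circ r1 h) :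
    rot θ x ∈ circ r0 0 ∪ circ r1 h := by
  rcases hx with hx | hx
  · exact Or.inl (circ_rot θ hx)
  · exact Or.inr (circ_rot θ hx)

end RTI

open RTI

theorem hRTI (hMSR : StMSR) : StRTI := by
  refine ⟨rot_rot, rot_zero, rot_dist, fun S M p θ => ⟨model_rot θ, reg_rot hMSR θ, bdy_rot θ⟩, ?_⟩
  intro S r0 r1 h θ hS
  refine ⟨hS.cpt.image (rot_cont θ), ?_, ?_, ?_⟩
  · intro x hx
    rw [mem_img]
    exact hS.sub (circ2_rot (-θ) hx)
  · rintro p' ⟨p, hp, rfl⟩ hp'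
    have h1 : p ∉ circ r0 0 ∪ circ r1 h := fun h2 => hp' (circ2_rot θ h2)
    rcases hS.int p hp h1 with h3 | h3 | h3
    · exact Or.inl (reg_rot hMSR θ h3)
    · exact Or.inr (Or.inl (model_rot θ h3))
    · exact Or.inr (Or.inr (model_rot θ h3))
  · intro p hp
    have h1 := bdy_rot θ (hS.bdy _ (circ2_rot (-θ) hp))
    rwa [rot_rot_neg] at h1

end Pool.Agent.Helper29.CY
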